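import Pool.Agent.Lib.MP_876e19_co.Main

set_option autoImplicit false

namespace Pool.Agent.Results.MP_876e19_co.AllButFinitelyMany

/-- There is `N` such that every connected vertex-transitive graph on at least `N` vertices has a
uniform path system. -/
theorem result :
    ∃ N : ℕ, ∀ (V : Type) [Finite V] (G : SimpleGraph V),
      N ≤ Nat.card V →
      G.Connected →
      (∀ x y : V, ∃ φ : G ≃g G, φ x = y) →
      ∃ P : ∀ x y : V, G.Walk x y,
        (∀ x y : V, x ≠ y → (P x y).IsPath) ∧
        ∃ c : ℕ, ∀ v : V,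
          {p : V × V | p.1 ≠ p.2 ∧ v ∈ (P p.1 p.2).support}.ncard = c := by
  obtain ⟨N, hN⟩ := Pool.Agent.UPS.main
  exact ⟨N, fun V _ G hn hG hT => hN V G hG hT hn⟩

end Pool.Agent.Results.MP_876e19_co.AllButFinitelyMany
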